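import Pool.Agent.Helper3.PD.Ring

/-!
# Ideals of the coordinate ring `k[x, y] / (y ^ 2 - h(x))`
-/

set_option autoImplicit false

namespace Pool.Agent.Helper3.PD

open Polynomial

universe u

variable {k : Type u} [Field k] {h : k[X]}

/-- The ideal of the pair `(U, V)`. -/
noncomputable def mum (h U V : k[X]) : Ideal (CR h) := Ideal.span {io h U, yy h - io h V}

/-- The ideal of the polynomials `b` which occur in the elements `a + b y` of `I`. -/
def lead (I : Ideal (CR h)) : Ideal k[X] where
  carrier := {b | ∃ a : k[X], io h a + io h b * yy h ∈ I}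
  add_mem' := by
    rintro b b' ⟨a, ha⟩ ⟨a', ha'⟩
    refine ⟨a + a', ?_⟩
    have := I.add_mem ha ha'
    simp only [map_add]
    convert this using 1
    ring
  zero_mem' := ⟨0, by simp⟩
  smul_mem' := by
    rintro c b ⟨a, ha⟩
    refine ⟨c * a, ?_⟩
    have := I.mul_mem_left (io h c) ha
    simp only [smul_eq_mul, map_mul]
    convert this using 1
    ring

lemma mem_lead {I : Ideal (CR h)} {b : k[X]} :
    b ∈ lead I ↔ ∃ a : k[X], io h a + io h b * yy h ∈ I := Iff.rfl

lemma conj_ne {α : CR h} {a b : k[X]} (hα : α = io h a + io h b * yy h) :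
    α * (io h a - io h b * yy h) = io h (a * a - h * (b * b)) := by
  rw [hα, norm_rep]

lemma exists_mum (hodd : Odd h.natDegree) {I : Ideal (CR h)} (hI : I ≠ ⊥) :
    ∃ d U V U' : k[X], d ≠ 0 ∧ U.Monic ∧ U * U' = h - V ^ 2 ∧
      I = Ideal.span {io h d} * mum h U V := by
  obtain ⟨d, hd⟩ := (IsPrincipalIdealRing.principal (lead I)).principal
  obtain ⟨e, he⟩ := (IsPrincipalIdealRing.principal (I.comap (io h))).principal
  rw [Ideal.submodule_span_eq] at hd he
  have hdm : d ∈ lead I := by rw [hd]; exact Ideal.mem_span_singleton_self d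
  have hem : io h e ∈ I := by
    have : e ∈ I.comap (io h) := by rw [he]; exact Ideal.mem_span_singleton_self e
    simpa using this
  have he0 : e ≠ 0 := by
    rintro rfl
    obtain ⟨α, hα, hα0⟩ := Submodule.exists_mem_ne_zero_of_ne_bot hI
    obtain ⟨a, b, rfl⟩ := exists_rep α
    have h1 : a * a - h * (b * b) ∈ I.comap (io h) := by
      rw [Ideal.mem_comap, ← norm_rep]
      exact I.mul_mem_right _ hα
    rw [he, Ideal.mem_span_singleton, zero_dvd_iff] at h1
    obtain ⟨h2, h3⟩ := no_sq hodd (sub_eq_zero.mp h1)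
    exact hα0 (by simp [h2, h3])
  have hed : e ∈ lead I := by
    refine ⟨0, ?_⟩
    have := I.mul_mem_right (yy h) hem
    simpa using this
  rw [hd, Ideal.mem_span_singleton] at hed
  obtain ⟨U, rfl⟩ := hed
  have hd0 : d ≠ 0 := left_ne_zero_of_mul he0
  have hU0 : U ≠ 0 := right_ne_zero_of_mul he0
  obtain ⟨a0, ha0⟩ := hdm
  have ha0' : a0 ∈ lead I := by
    refine ⟨h * d, ?_⟩
    have := I.mul_mem_right (yy h) ha0
    convert this using 1
    simp only [map_mul]
    linear_combination (-(io h d)) * (y_sq (h := h))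
  rw [hd, Ideal.mem_span_singleton] at ha0'
  obtain ⟨V', rfl⟩ := ha0'
  obtain ⟨V, rfl⟩ : ∃ V, V' = - V := ⟨-V', by ring⟩
  have hβ : io h d * (yy h - io h V) ∈ I := by
    convert ha0 using 1
    simp only [map_mul, map_neg]
    ring
  have hUV : U ∣ h - V ^ 2 := by
    have h1 : d * (h - V ^ 2) ∈ I.comap (io h) := by
      rw [Ideal.mem_comap]
      have := I.mul_mem_right (yy h + io h V) hβ
      convert this using 1
      simp only [map_mul, map_sub, map_pow]
      linear_combination (-(io h d)) * (y_sq (h := h))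
    rw [he, Ideal.mem_span_singleton] at h1
    exact (mul_dvd_mul_iff_left hd0).mp h1
  set c := U.leadingCoeff with hc
  have hc0 : c ≠ 0 := leadingCoeff_ne_zero.mpr hU0
  have hU1 : (C c⁻¹ * U).Monic := by
    rw [Monic, leadingCoeff_mul, leadingCoeff_C]
    exact inv_mul_cancel₀ hc0
  have hUU : U = C c * (C c⁻¹ * U) := by
    rw [← mul_assoc, ← C_mul, mul_inv_cancel₀ hc0, C_1, one_mul]
  obtain ⟨U', hU'⟩ := hUV
  refine ⟨d, C c⁻¹ * U, V, C c * U', hd0, hU1, ?_, ?_⟩
  · rw [hU']
    conv_rhs => rw [hUU]
    ring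
  · apply le_antisymm
    · intro α hα
      obtain ⟨a, b, rfl⟩ := exists_rep α
      have hb : b ∈ lead I := ⟨a, hα⟩
      rw [hd, Ideal.mem_span_singleton] at hb
      obtain ⟨q, rfl⟩ := hb
      have h1 : a + q * d * V ∈ I.comap (io h) := by
        rw [Ideal.mem_comap]
        have := I.sub_mem hα (I.mul_mem_left (io h q) hβ)
        convert this using 1
        simp only [map_mul, map_add]
        ring
      rw [he, Ideal.mem_span_singleton] at h1
      obtain ⟨s, hs⟩ := h1
      have h2 : io h a + io h (d * q) * yy h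
          = io h d * (io h (C c * s) * io h (C c⁻¹ * U) + io h q * (yy h - io h V)) := by
        have h3 : io h a = io h (d * U * s - q * d * V) := by
          rw [← hs]; congr 1; ring
        have h4 : io h (C c * s) * io h (C c⁻¹ * U) = io h (U * s) := by
          rw [← map_mul]
          congr 1
          calc C c * s * (C c⁻¹ * U) = (C c * (C c⁻¹ * U)) * s := by ring
            _ = U * s := by rw [← hUU]
        rw [h3, h4]
        simp only [map_mul, map_sub]
        ring
      rw [h2]
      apply Ideal.mul_mem_mul (Ideal.mem_span_singleton_self _)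
      unfold mum
      rw [Ideal.mem_span_pair]
      exact ⟨io h (C c * s), io h q, rfl⟩
    · rw [Ideal.mul_le]
      intro r hr s hs
      rw [Ideal.mem_span_singleton] at hr
      obtain ⟨r', rfl⟩ := hr
      unfold mum at hs
      rw [Ideal.mem_span_pair] at hs
      obtain ⟨p, q, rfl⟩ := hs
      have h1 : io h d * r' * (p * io h (C c⁻¹ * U) + q * (yy h - io h V))
          = (r' * p * io h (C c⁻¹)) * io h (d * U) + (r' * q) * (io h d * (yy h - io h V)) := by
        simp only [map_mul]
        ring
      rw [h1]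
      exact I.add_mem (I.mul_mem_left _ hem) (I.mul_mem_left _ hβ)

/-- The polynomials of a pair generate the unit ideal. -/
lemma bez (hsq : Squarefree h) {U U' W : k[X]} (hU : U * U' = h - W ^ 2) :
    ∃ r s t : k[X], r * U + s * U' + t * W = 1 := by
  obtain ⟨g, hg⟩ := (IsPrincipalIdealRing.principal (Ideal.span {U, U', W} : Ideal k[X])).principal
  rw [Ideal.submodule_span_eq] at hg
  have h1 : g ∣ U := by
    rw [← Ideal.mem_span_singleton, ← hg]; exact Ideal.subset_span (by simp)
  have h2 : g ∣ U' := by
    rw [← Ideal.mem_span_singleton, ← hg]; exact Ideal.subset_span (by simp)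
  have h3 : g ∣ W := by
    rw [← Ideal.mem_span_singleton, ← hg]; exact Ideal.subset_span (by simp)
  have h4 : g * g ∣ h := by
    have h5 : h = U * U' + W * W := by linear_combination -hU
    rw [h5]
    exact dvd_add (mul_dvd_mul h1 h2) (mul_dvd_mul h3 h3)
  have h6 : IsUnit g := hsq g h4
  have h7 : (1 : k[X]) ∈ (Ideal.span {U, U', W} : Ideal k[X]) := by
    rw [hg, Ideal.mem_span_singleton]
    exact h6.dvd
  rw [Submodule.mem_span_triple] at h7
  obtain ⟨r, s, t, h8⟩ := h7
  exact ⟨r, s, t, by simpa [smul_eq_mul] using h8⟩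

lemma bez' (hsq : Squarefree h) {w W Z : k[X]} (hU : w ^ 2 * W = h - Z ^ 2) :
    ∃ r t : k[X], r * w + t * Z = 1 := by
  obtain ⟨r, s, t, h1⟩ := bez hsq (U := w) (U' := w * W) (W := Z) (by rw [← hU]; ring)
  exact ⟨r + s * W, t, by rw [← h1]; ring⟩

lemma two_inv (h2 : (2 : k) ≠ 0) : io h (C (2 : k)⁻¹) * 2 = 1 := by
  have h3 : (2 : CR h) = io h (C (2 : k)) := by
    have : (C (2 : k) : k[X]) = 2 := map_ofNat C 2
    rw [this]; exact (map_ofNat (io h) 2).symm
  rw [h3, ← map_mul, ← C_mul, inv_mul_cancel₀ h2, C_1, map_one]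

lemma y_sq' {U U' V : k[X]} (hU : U * U' = h - V ^ 2) :
    io h U * io h U' = (yy h - io h V) * (yy h + io h V) := by
  rw [← map_mul, hU]
  simp only [map_sub, map_pow]
  linear_combination -(y_sq (h := h))

lemma mum_mul (hsq : Squarefree h) (h2 : (2 : k) ≠ 0) {U U' W : k[X]} (hU : U * U' = h - W ^ 2) :
    mum h U W * mum h U' W = Ideal.span {yy h - io h W} := by
  obtain ⟨r, s, t, hrst⟩ := bez hsq hU
  have hr : io h r * io h U + io h s * io h U' + io h t * io h W = 1 := by
    rw [← map_mul, ← map_mul, ← map_mul, ← map_add, ← map_add, hrst, map_one]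
  have hy := y_sq' hU
  have hi := two_inv (h := h) h2
  unfold mum
  rw [Ideal.span_pair_mul_span_pair]
  apply le_antisymm
  · rw [Ideal.span_le]
    intro z hz
    simp only [Set.mem_insert_iff, Set.mem_singleton_iff] at hz
    simp only [SetLike.mem_coe, Ideal.mem_span_singleton]
    rcases hz with rfl | rfl | rfl | rfl
    · exact ⟨_, hy⟩
    · exact ⟨io h U, by ring⟩
    · exact ⟨io h U', by ring⟩
    · exact ⟨_, rfl⟩
  · rw [Ideal.span_le]
    intro z hz
    simp only [Set.mem_singleton_iff] at hz
    subst hz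
    simp only [SetLike.mem_coe]
    have e1 : io h U * io h U' ∈ (Ideal.span {io h U * io h U', io h U * (yy h - io h W),
      (yy h - io h W) * io h U', (yy h - io h W) * (yy h - io h W)} : Ideal (CR h)) :=
      Ideal.subset_span (by simp)
    have e2 : io h U * (yy h - io h W) ∈ (Ideal.span {io h U * io h U', io h U * (yy h - io h W),
      (yy h - io h W) * io h U', (yy h - io h W) * (yy h - io h W)} : Ideal (CR h)) :=
      Ideal.subset_span (by simp)
    have e3 : (yy h - io h W) * io h U' ∈ (Ideal.span {io h U * io h U', io h U * (yy h - io h W),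
      (yy h - io h W) * io h U', (yy h - io h W) * (yy h - io h W)} : Ideal (CR h)) :=
      Ideal.subset_span (by simp)
    have e4 : (yy h - io h W) * (yy h - io h W) ∈ (Ideal.span {io h U * io h U',
      io h U * (yy h - io h W),
      (yy h - io h W) * io h U', (yy h - io h W) * (yy h - io h W)} : Ideal (CR h)) :=
      Ideal.subset_span (by simp)
    have key : yy h - io h W = io h r * (io h U * (yy h - io h W))
        + io h s * ((yy h - io h W) * io h U')
        + (io h t * io h (C (2 : k)⁻¹)) * (io h U * io h U')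
        - (io h t * io h (C (2 : k)⁻¹)) * ((yy h - io h W) * (yy h - io h W)) := by
      linear_combination (-(yy h - io h W)) * hr
        - (io h t * io h (C (2 : k)⁻¹)) * hy - (io h t * io h W * (yy h - io h W)) * hi
    have hm := Ideal.sub_mem _ (Ideal.add_mem _ (Ideal.add_mem _ (Ideal.mul_mem_left _ (io h r) e2)
      (Ideal.mul_mem_left _ (io h s) e3))
      (Ideal.mul_mem_left _ (io h t * io h (C (2 : k)⁻¹)) e1))
      (Ideal.mul_mem_left _ (io h t * io h (C (2 : k)⁻¹)) e4)
    rw [← key] at hm
    exact hm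

lemma mum_mul_neg (hsq : Squarefree h) (h2 : (2 : k) ≠ 0) {U U' W : k[X]}
    (hU : U * U' = h - W ^ 2) :
    mum h U W * mum h U (-W) = Ideal.span {io h U} := by
  obtain ⟨r, s, t, hrst⟩ := bez hsq hU
  have hr : io h r * io h U + io h s * io h U' + io h t * io h W = 1 := by
    rw [← map_mul, ← map_mul, ← map_mul, ← map_add, ← map_add, hrst, map_one]
  have hy := y_sq' hU
  have hi := two_inv (h := h) h2
  unfold mum
  rw [Ideal.span_pair_mul_span_pair]
  have hn : yy h - io h (-W) = yy h + io h W := by rw [map_neg]; ring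
  rw [hn]
  apply le_antisymm
  · rw [Ideal.span_le]
    intro z hz
    simp only [Set.mem_insert_iff, Set.mem_singleton_iff] at hz
    simp only [SetLike.mem_coe, Ideal.mem_span_singleton]
    rcases hz with rfl | rfl | rfl | rfl
    · exact ⟨_, rfl⟩
    · exact ⟨_, rfl⟩
    · exact ⟨yy h - io h W, by ring⟩
    · exact ⟨_, hy.symm⟩
  · rw [Ideal.span_le]
    intro z hz
    simp only [Set.mem_singleton_iff] at hz
    subst hz
    simp only [SetLike.mem_coe]
    have e1 : io h U * io h U ∈ (Ideal.span {io h U * io h U, io h U * (yy h + io h W),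
      (yy h - io h W) * io h U, (yy h - io h W) * (yy h + io h W)} : Ideal (CR h)) :=
      Ideal.subset_span (by simp)
    have e2 : io h U * (yy h + io h W) ∈ (Ideal.span {io h U * io h U, io h U * (yy h + io h W),
      (yy h - io h W) * io h U, (yy h - io h W) * (yy h + io h W)} : Ideal (CR h)) :=
      Ideal.subset_span (by simp)
    have e3 : (yy h - io h W) * io h U ∈ (Ideal.span {io h U * io h U,
      io h U * (yy h + io h W),
      (yy h - io h W) * io h U, (yy h - io h W) * (yy h + io h W)} : Ideal (CR h)) :=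
      Ideal.subset_span (by simp)
    have e4 : (yy h - io h W) * (yy h + io h W) ∈ (Ideal.span {io h U * io h U,
      io h U * (yy h + io h W),
      (yy h - io h W) * io h U, (yy h - io h W) * (yy h + io h W)} : Ideal (CR h)) :=
      Ideal.subset_span (by simp)
    have key : io h U = io h r * (io h U * io h U)
        + io h s * ((yy h - io h W) * (yy h + io h W))
        + (io h t * io h (C (2 : k)⁻¹)) * (io h U * (yy h + io h W))
        - (io h t * io h (C (2 : k)⁻¹)) * ((yy h - io h W) * io h U) := by
      linear_combination (-(io h U)) * hr + (io h s) * hy - (io h t * io h W * io h U) * hi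
    have hm := Ideal.sub_mem _ (Ideal.add_mem _ (Ideal.add_mem _ (Ideal.mul_mem_left _ (io h r) e1)
      (Ideal.mul_mem_left _ (io h s) e4))
      (Ideal.mul_mem_left _ (io h t * io h (C (2 : k)⁻¹)) e2))
      (Ideal.mul_mem_left _ (io h t * io h (C (2 : k)⁻¹)) e3)
    rw [← key] at hm
    exact hm

lemma mum_sq (hsq : Squarefree h) (h2 : (2 : k) ≠ 0) {w W Z : k[X]}
    (hU : w ^ 2 * W = h - Z ^ 2) :
    mum h (w ^ 2) Z = mum h w Z * mum h w Z := by
  obtain ⟨r, t, hrt⟩ := bez' hsq hU
  have hr : io h r * io h w + io h t * io h Z = 1 := by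
    rw [← map_mul, ← map_mul, ← map_add, hrt, map_one]
  have hy := y_sq' hU
  have hi := two_inv (h := h) h2
  unfold mum
  rw [Ideal.span_pair_mul_span_pair]
  have e1 : io h w * io h w ∈ (Ideal.span {io h w * io h w, io h w * (yy h - io h Z),
      (yy h - io h Z) * io h w, (yy h - io h Z) * (yy h - io h Z)} : Ideal (CR h)) :=
      Ideal.subset_span (by simp)
  have e2 : io h w * (yy h - io h Z) ∈ (Ideal.span {io h w * io h w, io h w * (yy h - io h Z),
      (yy h - io h Z) * io h w, (yy h - io h Z) * (yy h - io h Z)} : Ideal (CR h)) :=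
      Ideal.subset_span (by simp)
  have e4 : (yy h - io h Z) * (yy h - io h Z) ∈ (Ideal.span {io h w * io h w,
      io h w * (yy h - io h Z),
      (yy h - io h Z) * io h w, (yy h - io h Z) * (yy h - io h Z)} : Ideal (CR h)) :=
      Ideal.subset_span (by simp)
  apply le_antisymm
  · rw [Ideal.span_le]
    intro z hz
    simp only [Set.mem_insert_iff, Set.mem_singleton_iff] at hz
    simp only [SetLike.mem_coe]
    rcases hz with rfl | rfl
    · have : io h (w ^ 2) = io h w * io h w := by rw [map_pow]; ring
      rw [this]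
      exact e1
    · have hp : io h (w ^ 2) = io h w * io h w := by rw [map_pow]; ring
      rw [hp] at hy
      have key : yy h - io h Z = io h r * (io h w * (yy h - io h Z))
          + (io h t * io h (C (2 : k)⁻¹) * io h W) * (io h w * io h w)
          - (io h t * io h (C (2 : k)⁻¹)) * ((yy h - io h Z) * (yy h - io h Z)) := by
        linear_combination (-(yy h - io h Z)) * hr
          - (io h t * io h (C (2 : k)⁻¹)) * hy - (io h t * io h Z * (yy h - io h Z)) * hi
      have hm := Ideal.sub_mem _ (Ideal.add_mem _ (Ideal.mul_mem_left _ (io h r) e2)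
        (Ideal.mul_mem_left _ (io h t * io h (C (2 : k)⁻¹) * io h W) e1))
        (Ideal.mul_mem_left _ (io h t * io h (C (2 : k)⁻¹)) e4)
      rw [← key] at hm
      exact hm
  · rw [Ideal.span_le]
    intro z hz
    simp only [Set.mem_insert_iff, Set.mem_singleton_iff] at hz
    simp only [SetLike.mem_coe]
    rw [Ideal.mem_span_pair]
    rcases hz with rfl | rfl | rfl | rfl
    · exact ⟨1, 0, by rw [map_pow]; ring⟩
    · exact ⟨0, io h w, by ring⟩
    · exact ⟨0, io h w, by ring⟩
    · exact ⟨0, yy h - io h Z, by ring⟩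

lemma mum_congr {U V W s : k[X]} (hW : W = V + U * s) : mum h U W = mum h U V := by
  unfold mum
  apply le_antisymm
  · rw [Ideal.span_le]
    intro z hz
    simp only [Set.mem_insert_iff, Set.mem_singleton_iff] at hz
    simp only [SetLike.mem_coe]
    rw [Ideal.mem_span_pair]
    rcases hz with rfl | rfl
    · exact ⟨1, 0, by ring⟩
    · exact ⟨-(io h s), 1, by rw [hW]; simp only [map_add, map_mul]; ring⟩
  · rw [Ideal.span_le]
    intro z hz
    simp only [Set.mem_insert_iff, Set.mem_singleton_iff] at hz
    simp only [SetLike.mem_coe]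
    rw [Ideal.mem_span_pair]
    rcases hz with rfl | rfl
    · exact ⟨1, 0, by ring⟩
    · exact ⟨io h s, 1, by rw [hW]; simp only [map_add, map_mul]; ring⟩

lemma mum_unit {U V : k[X]} {c : k} (hc : c ≠ 0) : mum h (C c * U) V = mum h U V := by
  unfold mum
  apply le_antisymm
  · rw [Ideal.span_le]
    intro z hz
    simp only [Set.mem_insert_iff, Set.mem_singleton_iff] at hz
    simp only [SetLike.mem_coe]
    rw [Ideal.mem_span_pair]
    rcases hz with rfl | rfl
    · exact ⟨io h (C c), 0, by rw [map_mul]; ring⟩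
    · exact ⟨0, 1, by ring⟩
  · rw [Ideal.span_le]
    intro z hz
    simp only [Set.mem_insert_iff, Set.mem_singleton_iff] at hz
    simp only [SetLike.mem_coe]
    rw [Ideal.mem_span_pair]
    rcases hz with rfl | rfl
    · refine ⟨io h (C c⁻¹), 0, ?_⟩
      rw [← map_mul, ← mul_assoc, ← C_mul, inv_mul_cancel₀ hc, C_1, one_mul]
      ring
    · exact ⟨0, 1, by ring⟩

end Pool.Agent.Helper3.PD
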