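import Pool.Agent.Helper3.PD.Ring

/-!
# Linear algebra: an element of the ideal of a pair whose norm is a square times `U`
-/

set_option autoImplicit false

namespace Pool.Agent.Helper3.PD

open Polynomial

universe u

variable {k : Type u} [Field k] {h : k[X]}

lemma finrank_AR {g : k[X]} (hg : g.Monic) : Module.finrank k (AdjoinRoot g) = g.natDegree := by
  rw [(AdjoinRoot.powerBasis' hg).finrank, AdjoinRoot.powerBasis'_dim]

lemma finite_AR {g : k[X]} (hg : g.Monic) : Module.Finite k (AdjoinRoot g) :=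
  (AdjoinRoot.powerBasis' hg).finite

lemma finite_LT (n : ℕ) : Module.Finite k (degreeLT k n) :=
  Module.Finite.equiv (degreeLTEquiv k n).symm

lemma finrank_LT (n : ℕ) : Module.finrank k (degreeLT k n) = n := by
  rw [(degreeLTEquiv k n).finrank_eq, Module.finrank_fin_fun]

/-- The linear conditions. -/
noncomputable def linmap (h U V : k[X]) (T : AdjoinRoot h) (A B R : ℕ) :
    (degreeLT k A × degreeLT k B × degreeLT k R) →ₗ[k] (AdjoinRoot h × AdjoinRoot U) where
  toFun x := (AdjoinRoot.mk h (x.1 : k[X]) - AdjoinRoot.mk h (x.2.2 : k[X]) * T,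
    AdjoinRoot.mk U ((x.1 : k[X]) + (x.2.1 : k[X]) * V))
  map_add' x y := by
    simp only [Prod.fst_add, Prod.snd_add, Submodule.coe_add, map_add, map_mul, Prod.mk_add_mk]
    ext
    · simp only; ring
    · simp only; ring
  map_smul' c x := by
    simp only [Prod.smul_fst, Prod.smul_snd, Submodule.coe_smul, RingHom.id_apply, Prod.smul_mk]
    ext
    · simp only [← AdjoinRoot.smul_mk, smul_sub, smul_mul_assoc]
    · simp only [AdjoinRoot.smul_mk, smul_add, smul_mul_assoc]

lemma deg_mul_sq {c b : k[X]} {B D : ℕ} (hb : degree b < B)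
    (hB : natDegree c + 2 * B < D + 2) : degree (c * (b * b)) < D := by
  by_cases h0 : c * (b * b) = 0
  · rw [h0, degree_zero]; exact WithBot.bot_lt_coe _
  · have hc : c ≠ 0 := left_ne_zero_of_mul h0
    have hb0 : b ≠ 0 := left_ne_zero_of_mul (right_ne_zero_of_mul h0)
    rw [← natDegree_lt_iff_degree_lt h0, natDegree_mul hc (mul_ne_zero hb0 hb0),
      natDegree_mul hb0 hb0]
    rw [← natDegree_lt_iff_degree_lt hb0] at hb
    omega

lemma main_lin (hm : h.Monic) (hodd : Odd h.natDegree) {U V : k[X]} (hU : U.Monic)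
    (hUV : U ∣ h - V ^ 2) (hcop : IsCoprime U h) (T : AdjoinRoot h)
    (hT : AdjoinRoot.mk h ((-1) ^ U.natDegree * U) = T ^ 2) :
    ∃ a b r : k[X], r ≠ 0 ∧ a * a - h * (b * b) = (-1) ^ U.natDegree * U * (r * r) ∧
      U ∣ a + b * V := by
  have := finite_AR hm
  have := finite_AR hU
  have : ∀ n, Module.Finite k (degreeLT k n) := fun n => finite_LT n
  set N := h.natDegree with hN
  set m := U.natDegree with hmd
  set A := (N + m + 1) / 2 with hA
  set B := (m + 1) / 2 with hB
  set R := (N + 1) / 2 with hR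
  have hlt : Module.finrank k (AdjoinRoot h × AdjoinRoot U)
      < Module.finrank k (degreeLT k A × degreeLT k B × degreeLT k R) := by
    rw [Module.finrank_prod, Module.finrank_prod, Module.finrank_prod, finrank_AR hm,
      finrank_AR hU, finrank_LT, finrank_LT, finrank_LT]
    obtain ⟨n, hn⟩ := hodd
    omega
  have hker := LinearMap.ker_ne_bot_of_finrank_lt (f := linmap h U V T A B R) hlt
  obtain ⟨⟨⟨a, ha⟩, ⟨b, hb⟩, ⟨r, hr⟩⟩, hx, hx0⟩ := Submodule.exists_mem_ne_zero_of_ne_bot hker
  rw [LinearMap.mem_ker] at hx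
  simp only [linmap, LinearMap.coe_mk, AddHom.coe_mk, Prod.mk_eq_zero] at hx
  obtain ⟨h1, h2⟩ := hx
  rw [AdjoinRoot.mk_eq_zero] at h2
  rw [mem_degreeLT] at ha hb hr
  have hP : a * a - h * (b * b) - (-1) ^ m * U * (r * r) = 0 := by
    have d1 : h ∣ a * a - h * (b * b) - (-1) ^ m * U * (r * r) := by
      rw [← AdjoinRoot.mk_eq_zero]
      have h3 : AdjoinRoot.mk h a = AdjoinRoot.mk h r * T := sub_eq_zero.mp h1
      rw [map_sub, map_sub, map_mul (AdjoinRoot.mk h) a a, map_mul (AdjoinRoot.mk h) h,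
        AdjoinRoot.mk_self, map_mul (AdjoinRoot.mk h) ((-1) ^ m * U), hT, h3,
        map_mul (AdjoinRoot.mk h) r r]
      ring
    have d2 : U ∣ a * a - h * (b * b) - (-1) ^ m * U * (r * r) := by
      have e : a * a - h * (b * b) - (-1) ^ m * U * (r * r)
          = (a + b * V) * (a - b * V) - (h - V ^ 2) * (b * b) - U * ((-1) ^ m * (r * r)) := by ring
      rw [e]
      exact dvd_sub (dvd_sub (h2.mul_right _) (hUV.mul_right _)) (dvd_mul_right _ _)
    have d3 : U * h ∣ a * a - h * (b * b) - (-1) ^ m * U * (r * r) := hcop.mul_dvd d2 d1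
    apply eq_zero_of_dvd_of_degree_lt d3
    have hUh : degree (U * h) = ((N + m : ℕ) : WithBot ℕ) := by
      rw [degree_mul, degree_eq_natDegree hU.ne_zero, degree_eq_natDegree hm.ne_zero, ← hN, ← hmd]
      push_cast
      ring
    rw [hUh]
    have g1 : degree (a * a) < ((N + m : ℕ) : WithBot ℕ) := by
      have := deg_mul_sq (c := (1 : k[X])) (D := N + m) ha (by rw [natDegree_one]; omega)
      simpa using this
    have g2 : degree (h * (b * b)) < ((N + m : ℕ) : WithBot ℕ) :=
      deg_mul_sq (D := N + m) hb (by omega)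
    have g3 : degree ((-1) ^ m * U * (r * r)) < ((N + m : ℕ) : WithBot ℕ) := by
      apply deg_mul_sq (D := N + m) hr
      have : natDegree ((-1) ^ m * U) = m := by
        rcases neg_one_pow_eq_or k[X] m with e | e
        · rw [e, one_mul]
        · rw [e, neg_one_mul, natDegree_neg]
      rw [this]
      obtain ⟨n, hn⟩ := hodd
      omega
    exact lt_of_le_of_lt (degree_sub_le _ _)
      (max_lt (lt_of_le_of_lt (degree_sub_le _ _) (max_lt g1 g2)) g3)
  refine ⟨a, b, r, ?_, sub_eq_zero.mp hP, h2⟩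
  rintro rfl
  have h4 : a * a = h * (b * b) := by
    rw [mul_zero, mul_zero, sub_zero] at hP
    exact sub_eq_zero.mp hP
  obtain ⟨rfl, rfl⟩ := no_sq hodd h4
  exact hx0 rfl

end Pool.Agent.Helper3.PD
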