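import Pool.Agent.Helper3.PD.Ideals
import Pool.Agent.Helper3.PD.Lin
import Pool.Agent.Helper3.HY.DefsR

/-!
# Square values of the `x - T` map: the class of the ideal is a square
-/

set_option autoImplicit false

namespace Pool.Agent.Helper3.PD

open Polynomial

universe u

variable {k : Type u} [Field k] {h : k[X]}

lemma mum_mul_alpha (hsq : Squarefree h) (h2 : (2 : k) ≠ 0) {U U' V a b e : k[X]}
    (hU : U * U' = h - V ^ 2) (he : a + b * V = U * e) :
    mum h U V * Ideal.span {io h a + io h b * yy h, io h (e * V + b * U') + io h e * yy h}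
      = Ideal.span {io h a + io h b * yy h} := by
  obtain ⟨r, s, t, hrst⟩ := bez hsq hU
  have hr : io h r * io h U + io h s * io h U' + io h t * io h V = 1 := by
    rw [← map_mul, ← map_mul, ← map_mul, ← map_add, ← map_add, hrst, map_one]
  have hy := y_sq' hU
  have hi := two_inv (h := h) h2
  have ha : io h a = io h U * io h e - io h b * io h V := by
    rw [← map_mul, ← map_mul, ← map_sub]; congr 1; linear_combination he
  set α := io h a + io h b * yy h with hα
  set β := io h (e * V + b * U') + io h e * yy h with hβ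
  have q1 : io h U * β = α * (yy h + io h V) := by
    rw [hβ, hα, ha]
    simp only [map_add, map_mul]
    linear_combination (io h b) * hy
  have q2 : (yy h - io h V) * β = io h U' * α := by
    rw [hβ, hα, ha]
    simp only [map_add, map_mul]
    linear_combination (-(io h e)) * hy
  unfold mum
  rw [Ideal.span_pair_mul_span_pair]
  apply le_antisymm
  · rw [Ideal.span_le]
    intro z hz
    simp only [Set.mem_insert_iff, Set.mem_singleton_iff] at hz
    simp only [SetLike.mem_coe, Ideal.mem_span_singleton]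
    rcases hz with rfl | rfl | rfl | rfl
    · exact ⟨io h U, by ring⟩
    · exact ⟨yy h + io h V, q1⟩
    · exact ⟨yy h - io h V, by ring⟩
    · exact ⟨io h U', by rw [q2]; ring⟩
  · rw [Ideal.span_singleton_le_iff_mem]
    have e1 : io h U * α ∈ (Ideal.span {io h U * α, io h U * β,
      (yy h - io h V) * α, (yy h - io h V) * β} : Ideal (CR h)) :=
      Ideal.subset_span (by simp)
    have e2 : io h U * β ∈ (Ideal.span {io h U * α, io h U * β,
      (yy h - io h V) * α, (yy h - io h V) * β} : Ideal (CR h)) :=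
      Ideal.subset_span (by simp)
    have e3 : (yy h - io h V) * α ∈ (Ideal.span {io h U * α, io h U * β,
      (yy h - io h V) * α, (yy h - io h V) * β} : Ideal (CR h)) :=
      Ideal.subset_span (by simp)
    have e4 : (yy h - io h V) * β ∈ (Ideal.span {io h U * α, io h U * β,
      (yy h - io h V) * α, (yy h - io h V) * β} : Ideal (CR h)) :=
      Ideal.subset_span (by simp)
    have key : α = io h r * (io h U * α)
        + io h s * ((yy h - io h V) * β)
        + (io h t * io h (C (2 : k)⁻¹)) * (io h U * β)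
        - (io h t * io h (C (2 : k)⁻¹)) * ((yy h - io h V) * α) := by
      linear_combination (-α) * hr - (io h t * io h V * α) * hi - (io h s) * q2
        - (io h t * io h (C (2 : k)⁻¹)) * q1
    have hm := Ideal.sub_mem _ (Ideal.add_mem _ (Ideal.add_mem _ (Ideal.mul_mem_left _ (io h r) e1)
      (Ideal.mul_mem_left _ (io h s) e4))
      (Ideal.mul_mem_left _ (io h t * io h (C (2 : k)⁻¹)) e2))
      (Ideal.mul_mem_left _ (io h t * io h (C (2 : k)⁻¹)) e3)
    rwa [← key] at hm

lemma map_mum (U V : k[X]) : (mum h U V).map (conj h) = mum h U (-V) := by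
  unfold mum
  rw [Ideal.map_span, Set.image_pair, conj_io, map_sub, conj_io, conj_y]
  have : -yy h - io h V = -(yy h - io h (-V)) := by rw [map_neg]; ring
  rw [this]
  apply le_antisymm
  · rw [Ideal.span_le]
    intro z hz
    simp only [Set.mem_insert_iff, Set.mem_singleton_iff] at hz
    simp only [SetLike.mem_coe]
    rw [Ideal.mem_span_pair]
    rcases hz with rfl | rfl
    · exact ⟨1, 0, by ring⟩
    · exact ⟨0, -1, by ring⟩
  · rw [Ideal.span_le]
    intro z hz
    simp only [Set.mem_insert_iff, Set.mem_singleton_iff] at hz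
    simp only [SetLike.mem_coe]
    rw [Ideal.mem_span_pair]
    rcases hz with rfl | rfl
    · exact ⟨1, 0, by ring⟩
    · exact ⟨0, -1, by ring⟩

lemma span_io_mul_span_io (p q : k[X]) :
    (Ideal.span {io h p} : Ideal (CR h)) * Ideal.span {io h q} = Ideal.span {io h (p * q)} := by
  rw [Ideal.span_singleton_mul_span_singleton, map_mul]

/-- If the value at the pair `(U, V)` is a square then the class of its ideal is a square. -/
theorem main_sq (hm : h.Monic) (hodd : Odd h.natDegree) (hsq : Squarefree h) (h2 : (2 : k) ≠ 0)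
    {U V : k[X]} (hU : U.Monic)
    (hUV : U ∣ h - V ^ 2) (hcop : IsCoprime U h) (T : AdjoinRoot h)
    (hT : AdjoinRoot.mk h ((-1) ^ U.natDegree * U) = T ^ 2) :
    ∃ (J K : Ideal (CR h)) (a b c : CR h), a ≠ 0 ∧ b ≠ 0 ∧ c ≠ 0 ∧
      Ideal.span {a} * mum h U V = Ideal.span {b} * J ^ 2 ∧ J * K = Ideal.span {c} := by
  obtain ⟨a, b, r, hr, hab, e, he⟩ := main_lin hm hodd hU hUV hcop T hT
  obtain ⟨U', hU'⟩ := hUV
  set α := io h a + io h b * yy h with hα
  have hα0 : α ≠ 0 := by
    intro h0
    obtain ⟨rfl, rfl⟩ := rep_zero h0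
    have h3 : (-1) ^ U.natDegree * U * (r * r) ≠ 0 := by
      have : (-1 : k[X]) ^ U.natDegree ≠ 0 := pow_ne_zero _ (neg_ne_zero.mpr one_ne_zero)
      exact mul_ne_zero (mul_ne_zero this hU.ne_zero) (mul_ne_zero hr hr)
    apply h3
    rw [← hab]
    ring
  have hI := mum_mul_alpha hsq h2 hU'.symm he
  set A : Ideal (CR h) := Ideal.span {io h a + io h b * yy h,
    io h (e * V + b * U') + io h e * yy h} with hA
  have hA0 : A ≠ ⊥ := by
    intro h0
    have : α ∈ A := Ideal.subset_span (by simp [hα])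
    rw [h0, Ideal.mem_bot] at this
    exact hα0 this
  obtain ⟨d, W, Z, W', hd, hW, hWZ, hAd⟩ := exists_mum hodd hA0
  -- norms
  have hconj : (mum h U V * A).map (conj h) = (Ideal.span {α}).map (conj h) := by rw [hI]
  rw [Ideal.map_mul, map_mum, hAd, Ideal.map_mul, map_mum, Ideal.map_span, Ideal.map_span,
    Set.image_singleton, Set.image_singleton, conj_io] at hconj
  have hcα : conj h α = io h a - io h b * yy h := by
    rw [hα]
    simp only [map_add, map_mul, conj_io, conj_y]
    ring
  rw [hcα] at hconj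
  have hN : (Ideal.span {α} : Ideal (CR h)) * Ideal.span {io h a - io h b * yy h}
      = Ideal.span {io h ((-1) ^ U.natDegree * U * (r * r))} := by
    rw [Ideal.span_singleton_mul_span_singleton, hα, norm_rep, hab]
  have hprod : (Ideal.span {io h (U * (d * d) * W)} : Ideal (CR h))
      = Ideal.span {io h ((-1) ^ U.natDegree * U * (r * r))} := by
    rw [← hN, ← hconj, ← hI, hAd]
    calc (Ideal.span {io h (U * (d * d) * W)} : Ideal (CR h))
        = Ideal.span {io h U} * (Ideal.span {io h d} * Ideal.span {io h d})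
            * Ideal.span {io h W} := by
          rw [span_io_mul_span_io, span_io_mul_span_io, span_io_mul_span_io]
      _ = (mum h U V * mum h U (-V)) * (Ideal.span {io h d} * Ideal.span {io h d})
            * (mum h W Z * mum h W (-Z)) := by
          rw [mum_mul_neg hsq h2 hU'.symm, mum_mul_neg hsq h2 hWZ]
      _ = _ := by ring
  -- the polynomial identity
  have hs : (-1 : k[X]) ^ U.natDegree * (-1) ^ U.natDegree = 1 := by
    rw [← mul_pow]; simp
  have hdv1 : d * d * W ∣ r * r := by
    have h3 : io h (U * (d * d) * W) ∣ io h ((-1) ^ U.natDegree * U * (r * r)) := by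
      rw [← Ideal.mem_span_singleton, hprod]
      exact Ideal.mem_span_singleton_self _
    obtain ⟨q, hq⟩ := io_dvd h3
    refine ⟨(-1) ^ U.natDegree * q, ?_⟩
    apply mul_left_cancel₀ hU.ne_zero
    calc U * (r * r) = (-1 : k[X]) ^ U.natDegree * ((-1) ^ U.natDegree * U * (r * r)) := by
          linear_combination (-(U * (r * r))) * hs
      _ = _ := by rw [hq]; ring
  have hdv2 : r * r ∣ d * d * W := by
    have h3 : io h ((-1) ^ U.natDegree * U * (r * r)) ∣ io h (U * (d * d) * W) := by
      rw [← Ideal.mem_span_singleton, ← hprod]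
      exact Ideal.mem_span_singleton_self _
    obtain ⟨q, hq⟩ := io_dvd h3
    refine ⟨(-1) ^ U.natDegree * q, ?_⟩
    apply mul_left_cancel₀ hU.ne_zero
    calc U * (d * d * W) = U * (d * d) * W := by ring
      _ = _ := by rw [hq]; ring
  have hdr : d ∣ r := by
    have h3 : d ^ 2 ∣ r ^ 2 := by
      rw [pow_two, pow_two]
      exact (dvd_mul_right _ _).trans hdv1
    exact (IsIntegrallyClosed.pow_dvd_pow_iff two_ne_zero).mp h3
  obtain ⟨w0, rfl⟩ := hdr
  have hw0 : w0 ≠ 0 := right_ne_zero_of_mul hr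
  have hWw : Associated (w0 * w0) W := by
    apply associated_of_dvd_dvd
    · have h3 : d * d * (w0 * w0) ∣ d * d * W := by
        convert hdv2 using 1; ring
      exact (mul_dvd_mul_iff_left (mul_ne_zero hd hd)).mp h3
    · have h3 : d * d * W ∣ d * d * (w0 * w0) := by
        convert hdv1 using 1; ring
      exact (mul_dvd_mul_iff_left (mul_ne_zero hd hd)).mp h3
  -- normalise
  have hlw : w0.leadingCoeff ≠ 0 := leadingCoeff_ne_zero.mpr hw0
  set w := C w0.leadingCoeff⁻¹ * w0 with hw
  have hwm : w.Monic := by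
    rw [hw, Monic, leadingCoeff_mul, leadingCoeff_C]
    exact inv_mul_cancel₀ hlw
  have hww : W = w ^ 2 := by
    apply eq_of_monic_of_associated hW (hwm.pow 2)
    refine hWw.symm.trans ?_
    refine ⟨(Units.map (C : k →+* k[X]).toMonoidHom (Units.mk0 (w0.leadingCoeff⁻¹ ^ 2)
      (pow_ne_zero 2 (inv_ne_zero hlw)))), ?_⟩
    simp only [Units.coe_map, MonoidHom.coe_coe, Units.val_mk0, RingHom.toMonoidHom_eq_coe]
    rw [hw, map_pow]
    ring
  subst hww
  have hJ := mum_sq hsq h2 hWZ
  have hJK := mum_mul_neg hsq h2 (h := h) (U := w) (U' := w * W') (W := Z)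
    (by rw [← hWZ]; ring)
  -- `I * (d) * J ^ 2 = (α)`
  refine ⟨mum h w (-Z), mum h w Z, io h (d * w ^ 2), α, io h w, ?_, hα0, ?_, ?_, ?_⟩
  · exact io_ne_zero (mul_ne_zero hd (pow_ne_zero 2 hwm.ne_zero))
  · exact io_ne_zero hwm.ne_zero
  · rw [← hI, hAd, hJ]
    calc (Ideal.span {io h (d * w ^ 2)} : Ideal (CR h)) * mum h U V
        = (Ideal.span {io h d} * (Ideal.span {io h w} * Ideal.span {io h w})) * mum h U V := by
          rw [span_io_mul_span_io, span_io_mul_span_io, ← pow_two w]
      _ = (Ideal.span {io h d} * ((mum h w Z * mum h w (-Z)) * (mum h w Z * mum h w (-Z))))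
            * mum h U V := by rw [hJK]
      _ = _ := by ring
  · rw [mul_comm, hJK]

/-- Moving a pair into a pair which is coprime to `h`. -/
lemma moving (hsq : Squarefree h) {U V : k[X]} (hUV : U ∣ h - V ^ 2) :
    ∃ s U' : k[X], U * U' = h - (V + U * s) ^ 2 ∧ IsCoprime U' h := by
  obtain ⟨g, hg⟩ := (IsPrincipalIdealRing.principal (Ideal.span {U, h} : Ideal k[X])).principal
  rw [Ideal.submodule_span_eq] at hg
  obtain ⟨U1, hU1⟩ : g ∣ U := by
    rw [← Ideal.mem_span_singleton, ← hg]; exact Ideal.subset_span (by simp)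
  obtain ⟨h1, hh1⟩ : g ∣ h := by
    rw [← Ideal.mem_span_singleton, ← hg]; exact Ideal.subset_span (by simp)
  obtain ⟨r, s, hrs⟩ : ∃ r s : k[X], r * U + s * h = g := by
    have : g ∈ (Ideal.span {U, h} : Ideal k[X]) := by
      rw [hg]; exact Ideal.mem_span_singleton_self g
    rwa [Ideal.mem_span_pair] at this
  have hh0 : h ≠ 0 := hsq.ne_zero
  have hg0 : g ≠ 0 := by
    rintro rfl
    exact hh0 (by rw [hh1, zero_mul])
  have hrs' : r * U1 + s * h1 = 1 := by
    apply mul_left_cancel₀ hg0
    rw [hU1] at hrs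
    rw [mul_one]
    conv_rhs => rw [← hrs]
    conv_rhs => rw [hh1]
    ring
  have hgh : IsCoprime g h1 := by
    have h3 : Squarefree (g * h1) := by rw [← hh1]; exact hsq
    exact (squarefree_mul_iff.mp h3).1.isCoprime
  have hgs : Squarefree g := by
    have h3 : Squarefree (g * h1) := by rw [← hh1]; exact hsq
    exact (squarefree_mul_iff.mp h3).2.1
  have hUh : IsCoprime U h1 := by
    rw [hU1]
    exact IsCoprime.mul_left hgh ⟨r, s, hrs'⟩
  obtain ⟨p, q, hpq⟩ := hUh
  obtain ⟨Y, hY⟩ := hUV
  have hgV : g ∣ V := by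
    have h3 : g ∣ V ^ 2 := by
      have h4 : V ^ 2 = h - U * Y := by linear_combination -hY
      rw [h4]
      exact dvd_sub ⟨h1, hh1⟩ (by rw [hU1]; exact (dvd_mul_right _ _).mul_right _)
    exact hgs.isRadical 2 V h3
  set t := p * (1 - V) with ht
  have hW1 : V + U * t = 1 - q * h1 * (1 - V) := by
    rw [ht]
    linear_combination (1 - V) * hpq
  refine ⟨t, Y - 2 * V * t - U * t ^ 2, by linear_combination -hY, ?_⟩
  set U' := Y - 2 * V * t - U * t ^ 2 with hU'
  have hUU : U * U' = h - (V + U * t) ^ 2 := by rw [hU']; linear_combination -hY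
  obtain ⟨W1, hW⟩ : g ∣ V + U * t := dvd_add hgV (by rw [hU1]; exact (dvd_mul_right _ _).mul_right _)
  have c1 : IsCoprime U' h1 := by
    refine ⟨-U, g - q * (1 - V) * (-2 + q * h1 * (1 - V)) - 0, ?_⟩
    have e1 : -U * U' = (V + U * t) ^ 2 - h := by linear_combination -hUU
    rw [e1, hW1]
    conv_lhs => rw [show h = g * h1 from hh1]
    ring
  have c2 : IsCoprime U' g := by
    have e2 : U1 * U' = h1 - g * W1 ^ 2 := by
      apply mul_left_cancel₀ hg0
      calc g * (U1 * U') = U * U' := by rw [hU1]; ring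
        _ = h - (V + U * t) ^ 2 := hUU
        _ = g * h1 - (g * W1) ^ 2 := by rw [hW, ← hh1]
        _ = _ := by ring
    obtain ⟨x, y, hxy⟩ := hgh
    refine ⟨y * U1, x + y * W1 ^ 2, ?_⟩
    linear_combination y * e2 + hxy
  rw [hh1]
  exact IsCoprime.mul_right c2 c1

/-- The group of ideal classes is divisible by two if the values at the pairs are squares. -/
theorem divisible (hm : h.Monic) (hodd : Odd h.natDegree) (hsq : Squarefree h)
    (h2 : (2 : k) ≠ 0)
    (hval : ∀ z : AdjoinRoot h, HYR.IsPointValue h z → ∃ T, z = T ^ 2) (I : Ideal (CR h))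
    (hI : I ≠ ⊥) :
    ∃ (J : Ideal (CR h)) (a b : CR h), a ≠ 0 ∧ b ≠ 0 ∧
      Ideal.span {a} * I = Ideal.span {b} * J ^ 2 := by
  obtain ⟨d, U, V, U'', hd, hU, hUU, rfl⟩ := exists_mum hodd hI
  obtain ⟨s, U', hU', hcop⟩ := moving hsq (U := U) (V := V) ⟨U'', hUU.symm⟩
  set W := V + U * s with hW
  have hU'0 : U' ≠ 0 := by
    rintro rfl
    rw [mul_zero] at hU'
    obtain ⟨h3, h4⟩ := no_sq hodd (a := W) (b := 1) (by linear_combination hU')
    exact one_ne_zero h4
  set c := U'.leadingCoeff with hc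
  have hc0 : c ≠ 0 := leadingCoeff_ne_zero.mpr hU'0
  have hU1 : (C c⁻¹ * U').Monic := by
    rw [Monic, leadingCoeff_mul, leadingCoeff_C]
    exact inv_mul_cancel₀ hc0
  have hUc : U' = C c * (C c⁻¹ * U') := by
    rw [← mul_assoc, ← C_mul, mul_inv_cancel₀ hc0, C_1, one_mul]
  have hdv : C c⁻¹ * U' ∣ h - W ^ 2 := by
    refine ⟨C c * U, ?_⟩
    rw [← hU']
    conv_lhs => rw [hUc]
    ring
  have hcop1 : IsCoprime (C c⁻¹ * U') h := by
    exact (isCoprime_mul_unit_left_left
      (isUnit_C.mpr (isUnit_iff_ne_zero.mpr (inv_ne_zero hc0))) _ _).mpr hcop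
  obtain ⟨T, hT⟩ := hval _ ⟨C c⁻¹ * U', W, hU1, hcop1, hdv, rfl⟩
  obtain ⟨J, K, a, b, e, ha, hb, he, h3, h4⟩ := main_sq hm hodd hsq h2 hU1 hdv hcop1 T hT
  rw [mum_unit (inv_ne_zero hc0)] at h3
  have h5 := mum_mul hsq h2 hU'
  rw [mum_congr hW] at h5
  have hyW : yy h - io h W ≠ 0 := by
    intro h0
    have : io h (-W) + io h 1 * yy h = 0 := by
      simp only [map_neg, map_one]; linear_combination h0
    exact one_ne_zero (rep_zero this).2
  refine ⟨K, b * e ^ 2, a * io h d * (yy h - io h W), ?_, ?_, ?_⟩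
  · intro h0
    have h6 := mul_eq_zero' hodd hb h0
    rw [pow_two] at h6
    exact he (mul_eq_zero' hodd he h6)
  · intro h0
    have h6 : (a * io h d) ≠ 0 := by
      intro h7
      exact io_ne_zero hd (mul_eq_zero' hodd ha h7)
    exact hyW (mul_eq_zero' hodd h6 h0)
  · have e1 : (Ideal.span {b * e ^ 2} : Ideal (CR h))
        = Ideal.span {b} * (Ideal.span {e} * Ideal.span {e}) := by
      rw [Ideal.span_singleton_mul_span_singleton, Ideal.span_singleton_mul_span_singleton,
        ← pow_two e]
    have e2 : (Ideal.span {a * io h d * (yy h - io h W)} : Ideal (CR h))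
        = Ideal.span {a} * Ideal.span {io h d} * Ideal.span {yy h - io h W} := by
      rw [Ideal.span_singleton_mul_span_singleton, Ideal.span_singleton_mul_span_singleton]
    rw [e1, e2, ← h5, ← h4]
    calc Ideal.span {b} * (J * K * (J * K)) * (Ideal.span {io h d} * mum h U V)
        = (Ideal.span {b} * J ^ 2) * K ^ 2 * (Ideal.span {io h d} * mum h U V) := by ring
      _ = (Ideal.span {a} * mum h U' W) * K ^ 2 * (Ideal.span {io h d} * mum h U V) := by
          rw [← h3]
      _ = _ := by ring

end Pool.Agent.Helper3.PD
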