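import Mathlib

/-!
# The coordinate ring `k[x, y] / (y ^ 2 - h(x))`: basic facts
-/

set_option autoImplicit false

namespace Pool.Agent.Helper3.PD

open Polynomial

universe u

variable {k : Type u} [Field k]

/-- The ring `k[x, y] / (y ^ 2 - h(x))`. -/
abbrev CR (h : k[X]) : Type u := AdjoinRoot (X ^ 2 - C h : k[X][X])

/-- The embedding of `k[x]`. -/
noncomputable abbrev io (h : k[X]) : k[X] →+* CR h := AdjoinRoot.of (X ^ 2 - C h : k[X][X])

/-- The element `y`. -/
noncomputable abbrev yy (h : k[X]) : CR h := AdjoinRoot.root (X ^ 2 - C h : k[X][X])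

variable {h : k[X]}

lemma y_sq : yy h * yy h = io h h := by
  have := AdjoinRoot.eval₂_root (X ^ 2 - C h : k[X][X])
  simp only [eval₂_sub, eval₂_pow, eval₂_X, eval₂_C] at this
  rw [← pow_two]
  exact sub_eq_zero.mp this

lemma monic_def : (X ^ 2 - C h : k[X][X]).Monic := monic_X_pow_sub_C h two_ne_zero

lemma natDegree_def : (X ^ 2 - C h : k[X][X]).natDegree = 2 := natDegree_X_pow_sub_C

lemma exists_rep (α : CR h) : ∃ a b : k[X], α = io h a + io h b * yy h := by
  obtain ⟨g, rfl⟩ := AdjoinRoot.mk_surjective α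
  have hm := monic_def (h := h)
  have h1 : AdjoinRoot.mk (X ^ 2 - C h : k[X][X]) g
      = AdjoinRoot.mk (X ^ 2 - C h : k[X][X]) (g %ₘ (X ^ 2 - C h : k[X][X])) := by
    rw [AdjoinRoot.mk_eq_mk]
    exact ⟨g /ₘ (X ^ 2 - C h : k[X][X]), by
      have := modByMonic_add_div g (X ^ 2 - C h : k[X][X])
      linear_combination - this⟩
  have hd : (g %ₘ (X ^ 2 - C h : k[X][X])).degree < 2 := by
    have := degree_modByMonic_lt g hm
    rwa [degree_eq_natDegree hm.ne_zero, natDegree_def] at this
  refine ⟨(g %ₘ (X ^ 2 - C h : k[X][X])).coeff 0, (g %ₘ (X ^ 2 - C h : k[X][X])).coeff 1, ?_⟩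
  rw [h1]
  have h2 : g %ₘ (X ^ 2 - C h : k[X][X])
      = C ((g %ₘ (X ^ 2 - C h : k[X][X])).coeff 1) * X
        + C ((g %ₘ (X ^ 2 - C h : k[X][X])).coeff 0) := by
    apply eq_X_add_C_of_degree_le_one
    rw [degree_le_iff_coeff_zero]
    intro m hm'
    apply coeff_eq_zero_of_degree_lt
    refine lt_of_lt_of_le hd ?_
    have h3 : (1 : ℕ) < m := by exact_mod_cast hm'
    exact_mod_cast h3
  conv_lhs => rw [h2]
  simp only [map_add, map_mul, AdjoinRoot.mk_C, AdjoinRoot.mk_X]
  ring

lemma rep_zero {a b : k[X]} (hab : io h a + io h b * yy h = 0) : a = 0 ∧ b = 0 := by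
  have h1 : AdjoinRoot.mk (X ^ 2 - C h : k[X][X]) (C a + C b * X) = 0 := by
    simpa [AdjoinRoot.mk_C, AdjoinRoot.mk_X] using hab
  rw [AdjoinRoot.mk_eq_zero] at h1
  have h2 : (C a + C b * X : k[X][X]) = 0 := by
    by_contra hne
    have := natDegree_le_of_dvd h1 hne
    rw [natDegree_def] at this
    have h3 : (C a + C b * X : k[X][X]).natDegree ≤ 1 := by
      rw [add_comm]; exact natDegree_linear_le
    omega
  constructor
  · have := congrArg (fun p => coeff p 0) h2
    simpa using this
  · have := congrArg (fun p => coeff p 1) h2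
    simpa using this

lemma rep_inj {a b a' b' : k[X]} (hab : io h a + io h b * yy h = io h a' + io h b' * yy h) :
    a = a' ∧ b = b' := by
  have : io h (a - a') + io h (b - b') * yy h = 0 := by
    simp only [map_sub]
    linear_combination hab
  obtain ⟨h1, h2⟩ := rep_zero this
  exact ⟨sub_eq_zero.mp h1, sub_eq_zero.mp h2⟩

lemma io_inj {a a' : k[X]} (hab : io h a = io h a') : a = a' := by
  have : io h a + io h 0 * yy h = io h a' + io h 0 * yy h := by simp [hab]
  exact (rep_inj this).1

lemma io_dvd {p q : k[X]} (hpq : io h p ∣ io h q) : p ∣ q := by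
  obtain ⟨γ, hγ⟩ := hpq
  obtain ⟨a, b, rfl⟩ := exists_rep γ
  have : io h q + io h 0 * yy h = io h (p * a) + io h (p * b) * yy h := by
    rw [hγ]; simp only [map_mul, map_zero]; ring
  exact ⟨a, (rep_inj this).1⟩

/-- The conjugation `y ↦ -y`. -/
noncomputable def conj (h : k[X]) : CR h →+* CR h :=
  AdjoinRoot.lift (io h) (-(yy h)) (by
    simp only [eval₂_sub, eval₂_pow, eval₂_X, eval₂_C]
    have := y_sq (h := h)
    linear_combination this)

@[simp] lemma conj_io (a : k[X]) : conj h (io h a) = io h a := by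
  simp [conj]

@[simp] lemma conj_y : conj h (yy h) = - yy h := by
  simp [conj]

lemma no_sq (hodd : Odd h.natDegree) {a b : k[X]} (hab : a * a = h * (b * b)) : a = 0 ∧ b = 0 := by
  have hh : h ≠ 0 := by
    rintro rfl
    simp at hodd
  by_cases hb : b = 0
  · subst hb
    simp at hab
    exact ⟨hab, rfl⟩
  · exfalso
    have ha : a ≠ 0 := by
      rintro rfl
      simp at hab
      rcases hab with h1 | h1
      · exact hh h1
      · exact hb h1
    have := congrArg natDegree hab
    rw [natDegree_mul ha ha, natDegree_mul hh (mul_ne_zero hb hb), natDegree_mul hb hb] at this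
    obtain ⟨m, hm⟩ := hodd
    omega

/-- The norm. -/
lemma norm_rep (a b : k[X]) :
    (io h a + io h b * yy h) * (io h a - io h b * yy h) = io h (a * a - h * (b * b)) := by
  simp only [map_sub, map_mul]
  linear_combination (-(io h b) * (io h b)) * (y_sq (h := h))

lemma io_ne_zero {a : k[X]} (ha : a ≠ 0) : io h a ≠ 0 := by
  intro h0
  exact ha (io_inj (h := h) (by simpa using h0))

lemma io_mul_eq_zero {p : k[X]} (hp : p ≠ 0) {β : CR h} (hβ : io h p * β = 0) : β = 0 := by
  obtain ⟨a, b, rfl⟩ := exists_rep β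
  have : io h (p * a) + io h (p * b) * yy h = 0 := by
    simp only [map_mul]; linear_combination hβ
  obtain ⟨h1, h2⟩ := rep_zero this
  have h3 : a = 0 := by simpa [hp] using h1
  have h4 : b = 0 := by simpa [hp] using h2
  simp [h3, h4]

lemma mul_eq_zero' (hodd : Odd h.natDegree) {α β : CR h} (hα : α ≠ 0) (hαβ : α * β = 0) :
    β = 0 := by
  obtain ⟨a, b, rfl⟩ := exists_rep α
  have hN : a * a - h * (b * b) ≠ 0 := by
    intro h0
    obtain ⟨h1, h2⟩ := no_sq hodd (sub_eq_zero.mp h0)
    exact hα (by simp [h1, h2])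
  apply io_mul_eq_zero hN
  rw [← norm_rep]
  linear_combination (io h a - io h b * yy h) * hαβ

end Pool.Agent.Helper3.PD
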