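import Pool.Agent.Helper3.PD.Main
import Pool.Agent.Helper54.HL.M_NR

/-!
# A trivial 2-Selmer set: the Picard group of the affine curve is divisible by two
-/

set_option autoImplicit false

namespace Pool.Agent.Helper3.PD

open Polynomial
open Pool.Agent.Helper3.HYR

lemma norm_isSquare {k : Type} [Field k] {h U V : k[X]} (hm : h.Monic)
    (hU : U.Monic) (hUV : U ∣ h - V ^ 2) :
    IsSquare (Algebra.norm k (AdjoinRoot.mk h ((-1) ^ U.natDegree * U))) := by
  have e1 : Algebra.norm k (AdjoinRoot.mk h U) = resultant h U := Helper54.HL.hNR k h U hm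
  have e2 : Algebra.norm k (AdjoinRoot.mk U h) = resultant U h := Helper54.HL.hNR k U h hU
  have e3 : AdjoinRoot.mk U h = AdjoinRoot.mk U V * AdjoinRoot.mk U V := by
    rw [← map_mul, AdjoinRoot.mk_eq_mk, ← pow_two]
    exact hUV
  have e4 : Algebra.norm k (AdjoinRoot.mk h ((-1) ^ U.natDegree : k[X]))
      = ((-1) ^ U.natDegree) ^ h.natDegree := by
    have h1 : AdjoinRoot.mk h ((-1) ^ U.natDegree : k[X])
        = algebraMap k (AdjoinRoot h) ((-1) ^ U.natDegree) := by
      rw [map_pow, map_neg, map_one, map_pow, map_neg, map_one]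
    rw [h1, Algebra.norm_algebraMap, finrank_AR hm]
  rw [map_mul, map_mul, e1, e4, resultant_comm, ← e2, e3, map_mul]
  have e5 : ((-1 : k) ^ U.natDegree) ^ h.natDegree * (-1) ^ (h.natDegree * U.natDegree) = 1 := by
    rw [← pow_mul, ← pow_add, mul_comm h.natDegree, ← two_mul, pow_mul]
    simp
  refine ⟨Algebra.norm k (AdjoinRoot.mk U V), ?_⟩
  linear_combination (Algebra.norm k (AdjoinRoot.mk U V) * Algebra.norm k (AdjoinRoot.mk U V)) * e5

universe u v

lemma baseChange_mk {k : Type u} {k' : Type v} [Field k] [Field k'] (i : k →+* k') (h p : k[X]) :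
    AdjoinRoot.map i h (h.map i) dvd_rfl (AdjoinRoot.mk h p)
      = AdjoinRoot.mk (h.map i) (p.map i) := by
  have h1 : AdjoinRoot.mk (h.map i) (p.map i) = eval₂ (AdjoinRoot.of (h.map i))
      (AdjoinRoot.root (h.map i)) (p.map i) := by
    rw [← AdjoinRoot.aeval_eq, aeval_def, AdjoinRoot.algebraMap_eq]
  rw [h1, eval₂_map]
  simp [AdjoinRoot.map]

lemma isPointValue_map {k k' : Type u} [Field k] [Field k'] (i : k →+* k') {h : k[X]}
    {z : AdjoinRoot h} (hz : IsPointValue h z) :
    IsPointValue (h.map i) (baseChange i h z) := by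
  obtain ⟨U, V, hU, hc, hd, rfl⟩ := hz
  refine ⟨U.map i, V.map i, hU.map i, ?_, ?_, ?_⟩
  · exact hc.map (mapRingHom i)
  · have := Polynomial.map_dvd i hd
    simpa using this
  · unfold baseChange
    rw [baseChange_mk, hU.natDegree_map]
    simp

lemma mem_selmerSet {k : Type} [Field k] {h : k[X]} (hm : h.Monic)
    {z : (AdjoinRoot h)ˣ} (hz : IsPointValue h (z : AdjoinRoot h)) : z ∈ selmerSet h := by
  refine ⟨?_, ?_⟩
  · obtain ⟨U, V, hU, -, hd, he⟩ := hz
    rw [he]
    exact norm_isSquare hm hU hd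
  · intro v _
    refine ⟨Units.map (baseChange (algebraMap k v.Completion) h).toMonoidHom z, ?_, rfl⟩
    apply Subgroup.subset_closure
    left
    exact isPointValue_map _ hz

/-- The Picard group of `k[x, y] / (y ^ 2 - h(x))` is divisible by two: for every nonzero ideal `I` there
are an ideal `J` and nonzero elements `a`, `b` with `a I = b J ^ 2`. -/
def PicTwoDivisible {k : Type u} [Field k] (h : k[X]) : Prop :=
  ∀ I : Ideal (AdjoinRoot (X ^ 2 - C h : k[X][X])), I ≠ ⊥ →
    ∃ (J : Ideal (AdjoinRoot (X ^ 2 - C h : k[X][X])))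
      (a b : AdjoinRoot (X ^ 2 - C h : k[X][X])), a ≠ 0 ∧ b ≠ 0 ∧
      Ideal.span {a} * I = Ideal.span {b} * J ^ 2

theorem picTwoDivisible_of_trivialSelmer {k : Type} [Field k] {h : k[X]} (h2 : (2 : k) ≠ 0)
    (hm : h.Monic) (hodd : Odd h.natDegree) (hsep : h.Separable) (hS : TrivialSelmer h) :
    PicTwoDivisible h := by
  intro I hI
  refine divisible hm hodd hsep.squarefree h2 ?_ I hI
  intro z hz
  have hu : IsUnit z := by
    obtain ⟨U, V, hU, ⟨a, b, hab⟩, hd, rfl⟩ := hz
    rw [map_mul]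
    refine IsUnit.mul ?_ ?_
    · rw [map_pow, map_neg, map_one]
      exact (isUnit_one.neg).pow _
    · refine IsUnit.of_mul_eq_one (AdjoinRoot.mk h a) ?_
      rw [← map_mul, mul_comm, ← map_one (AdjoinRoot.mk h), AdjoinRoot.mk_eq_mk]
      exact ⟨-b, by linear_combination hab⟩
  obtain ⟨z, rfl⟩ := hu
  obtain ⟨w, hw⟩ := hS z (mem_selmerSet hm hz)
  exact ⟨(w : AdjoinRoot h), by rw [hw, pow_two]; simp⟩

end Pool.Agent.Helper3.PD
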